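import Mathlib
import Pool.Agent.TH35.CH.Zar

set_option autoImplicit false

/-! A representation of `F_n` of dimension `d` with `d^2 < 2^(n/2-5)` whose Zariski closure is a
simple algebraic group is not characteristic. -/

namespace Pool.Agent.Results.MP_df3f9a_al.SmallDimension

theorem result :
    ∀ (n d : ℕ), d ^ 2 < 2 ^ (n / 2 - 5) →
    ∀ (ρ : FreeGroup (Fin n) →* Matrix.SpecialLinearGroup (Fin d) ℂ)
      (Z : Set (Matrix (Fin d) (Fin d) ℂ)),
      (∀ M : Matrix (Fin d) (Fin d) ℂ, M ∈ Z ↔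
        ∀ p : MvPolynomial (Fin d × Fin d) ℂ,
          (∀ x : FreeGroup (Fin n),
            MvPolynomial.eval
              (fun ij : Fin d × Fin d => (ρ x : Matrix (Fin d) (Fin d) ℂ) ij.1 ij.2) p = 0) →
          MvPolynomial.eval (fun ij : Fin d × Fin d => M ij.1 ij.2) p = 0) →
      (∀ p q : MvPolynomial (Fin d × Fin d) ℂ,
        (∀ M ∈ Z, MvPolynomial.eval (fun ij : Fin d × Fin d => M ij.1 ij.2) (p * q) = 0) →
        (∀ M ∈ Z, MvPolynomial.eval (fun ij : Fin d × Fin d => M ij.1 ij.2) p = 0) ∨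
        (∀ M ∈ Z, MvPolynomial.eval (fun ij : Fin d × Fin d => M ij.1 ij.2) q = 0)) →
      (∃ A ∈ Z, ∃ B ∈ Z, A * B ≠ B * A) →
      (∀ H : Set (Matrix (Fin d) (Fin d) ℂ), H ⊆ Z →
        (1 : Matrix (Fin d) (Fin d) ℂ) ∈ H →
        (∀ A ∈ H, ∀ B ∈ H, A * B ∈ H) →
        (∀ A ∈ H, A⁻¹ ∈ H) →
        (∀ A ∈ Z, ∀ B ∈ H, A * B * A⁻¹ ∈ H) →
        (∀ M : Matrix (Fin d) (Fin d) ℂ,
          (∀ p : MvPolynomial (Fin d × Fin d) ℂ,
            (∀ B ∈ H, MvPolynomial.eval (fun ij : Fin d × Fin d => B ij.1 ij.2) p = 0) →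
            MvPolynomial.eval (fun ij : Fin d × Fin d => M ij.1 ij.2) p = 0) → M ∈ H) →
        (∀ p q : MvPolynomial (Fin d × Fin d) ℂ,
          (∀ B ∈ H, MvPolynomial.eval (fun ij : Fin d × Fin d => B ij.1 ij.2) (p * q) = 0) →
          (∀ B ∈ H, MvPolynomial.eval (fun ij : Fin d × Fin d => B ij.1 ij.2) p = 0) ∨
          (∀ B ∈ H, MvPolynomial.eval (fun ij : Fin d × Fin d => B ij.1 ij.2) q = 0)) →
        H = {1} ∨ H = Z) →
      ∃ σ : FreeGroup (Fin n) ≃* FreeGroup (Fin n),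
        ∀ g : Matrix.GeneralLinearGroup (Fin d) ℂ,
          ∃ x : FreeGroup (Fin n), (ρ (σ x) : Matrix (Fin d) (Fin d) ℂ) ≠
            (g : Matrix (Fin d) (Fin d) ℂ) * (ρ x : Matrix (Fin d) (Fin d) ℂ) *
              ((g⁻¹ : Matrix.GeneralLinearGroup (Fin d) ℂ) : Matrix (Fin d) (Fin d) ℂ) := by
  intro n d hd ρ Z hZ hirr hcomm hsimple
  by_contra hcon
  push Not at hcon
  let m : Matrix.SpecialLinearGroup (Fin d) ℂ →* Matrix.GeneralLinearGroup (Fin d) ℂ :=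
    Matrix.SpecialLinearGroup.toGL
  have hm : Function.Injective m := Matrix.SpecialLinearGroup.toGL_injective
  have h1 := Pool.Agent.TH35.CH.char_nil hd (m.comp ρ) (by
    intro σ
    obtain ⟨g, hg⟩ := hcon σ
    refine ⟨g, ?_⟩
    intro x
    apply Units.ext
    rw [Units.val_mul, Units.val_mul]
    exact hg x)
  rw [MonoidHom.range_comp, ← Subgroup.map_lowerCentralSeries,
    Subgroup.map_eq_bot_iff_of_injective _ hm] at h1
  have hnil : Group.IsNilpotent ρ.range :=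
    (Subgroup.isNilpotent_iff_lowerCentralSeries _).2 ⟨_, h1⟩
  refine Pool.Agent.TH35.CH.not_simple ρ.range hnil Z ?_ hirr hcomm hsimple
  ext M
  rw [hZ M]
  constructor
  · intro h p hp
    exact h p fun x => hp _ ⟨ρ x, ⟨x, rfl⟩, rfl⟩
  · intro h p hp
    refine h p ?_
    rintro _ ⟨_, ⟨x, rfl⟩, rfl⟩
    exact hp x

end Pool.Agent.Results.MP_df3f9a_al.SmallDimension
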